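import Pool.Agent.H59.KA.Stmts

/-!
# Project KA, module QFN: the final statements
-/

set_option autoImplicit false

open MeasureTheory Set Filter Topology
open scoped ContDiff

namespace Pool.Agent.H59.KA

open Pool.Agent.H84 hiding cv mn
open Pool.Agent.H84.Sym Pool.Agent.H84.Sym.P2x Pool.Agent.H19.KL
open Pool.Agent.H73.KG Pool.Agent.H20.KH Pool.Agent.H78.KP

section

variable {E : Type} [NormedAddCommGroup E] [InnerProductSpace ℝ E]
    [FiniteDimensional ℝ E] [MeasurableSpace E] [BorelSpace E]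

/-- monotonicity in the constant -/
theorem qfn_mono (hBAS : BASStmt E) (hQPH : QPHStmt) {t g g' : ℝ} (h : GQ E t g) (hg : g ≤ g') :
    GQ E t g' := by
  obtain ⟨-, -, -, -, -, b6, -⟩ := hBAS
  intro U hU ι _ _ b B c hB
  have h1 : (cm b U + 1).PosSemidef := (b6 U t hU ι b).1.add Matrix.PosSemidef.one
  have h2 := (hQPH ι (cm b U + 1) B (qv b B c U) hB).2.2.1 h1
  exact (h U hU ι b B c hB).trans (mul_le_mul_of_nonneg_right hg h2)

/-- one application of the differential inequality -/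
theorem qfn_step (hBAS : BASStmt E) (hQPH : QPHStmt) (hQST : QSTStmt E) (hQIN : QINStmt)
    (hQQB : QQBStmt E) (hQS0 : QS0Stmt E) {t0 Q : ℝ} (h0 : 0 < t0) (h1 : t0 ≤ 1) (hQ : 1 ≤ Q)
    (h : GQ E t0 Q) : GQ E t0 (200 * Real.sqrt Q) := by
  have hT := (hQQB t0 Q h0 (by linarith) h).2
  obtain ⟨C, hC, hS⟩ := hQST t0 h0 h1
  refine hQIN (GQ E) t0 Q C h0 h1 hQ hC (fun t a b => hQS0 t a b) ?_
    (fun t g g' a b => qfn_mono hBAS hQPH a b)
  intro t s η g L a1 a2 a3 a4 a5 a6 a7 a8 a9 a10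
  refine hS (4 * Q) (by linarith) hT t s η g L a1 a2 a3 a4 a5 a6 a7 a8 a9 ?_
  have e : 2 * (4 * Q) + 3 = 8 * Q + 3 := by ring
  rw [e]
  exact a10

/-- the bound for one space and one time `t0 ≤ 1` -/
theorem qfn_one (hBAS : BASStmt E) (hQPH : QPHStmt) (hQST : QSTStmt E) (hQIN : QINStmt)
    (hQQB : QQBStmt E) (hQS0 : QS0Stmt E) {t0 : ℝ} (h0 : 0 < t0) (h1 : t0 ≤ 1) :
    GQ E t0 50000 := by
  set S : Set ℝ := {Q | 1 ≤ Q ∧ GQ E t0 Q} with hS
  have hne : S.Nonempty := by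
    refine ⟨4 / Real.sqrt t0, ?_, hQS0 t0 h0 h1⟩
    have h2 : Real.sqrt t0 ≤ 1 := by
      have := Real.sqrt_le_sqrt h1
      rwa [Real.sqrt_one] at this
    have h3 : 0 < Real.sqrt t0 := Real.sqrt_pos.2 h0
    rw [le_div_iff₀ h3]
    linarith
  have hbd : BddBelow S := ⟨1, fun Q hQ => hQ.1⟩
  have hinf : 1 ≤ sInf S := le_csInf hne fun Q hQ => hQ.1
  have hk : ∀ Q ∈ S, (sInf S) ^ 2 / 40000 ≤ Q := by
    intro Q hQ
    have h2 := qfn_step hBAS hQPH hQST hQIN hQQB hQS0 h0 h1 hQ.1 hQ.2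
    have h3 : 1 ≤ Real.sqrt Q := Real.one_le_sqrt.2 hQ.1
    have h4 : 200 * Real.sqrt Q ∈ S := ⟨by linarith, h2⟩
    have h5 := csInf_le hbd h4
    have h6 : Real.sqrt Q ^ 2 = Q := Real.sq_sqrt (by linarith [hQ.1])
    rw [div_le_iff₀ (by norm_num)]
    nlinarith
  have h2 := le_csInf hne hk
  have h3 : sInf S < 50000 := by
    rw [div_le_iff₀ (by norm_num)] at h2
    nlinarith
  obtain ⟨Q, hQ, hQ2⟩ := exists_lt_of_csInf_lt hne h3
  exact qfn_mono hBAS hQPH hQ.2 hQ2.le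

end

/-- QFN -/
theorem qfn_thm
    (hBAS : ∀ (E : Type) [NormedAddCommGroup E] [InnerProductSpace ℝ E]
      [FiniteDimensional ℝ E] [MeasurableSpace E] [BorelSpace E], BASStmt E)
    (hQPH : QPHStmt)
    (hQST : ∀ (E : Type) [NormedAddCommGroup E] [InnerProductSpace ℝ E]
      [FiniteDimensional ℝ E] [MeasurableSpace E] [BorelSpace E], QSTStmt E)
    (hQIN : QINStmt)
    (hQQB : ∀ (E : Type) [NormedAddCommGroup E] [InnerProductSpace ℝ E]
      [FiniteDimensional ℝ E] [MeasurableSpace E] [BorelSpace E], QQBStmt E)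
    (hQS0 : ∀ (E : Type) [NormedAddCommGroup E] [InnerProductSpace ℝ E]
      [FiniteDimensional ℝ E] [MeasurableSpace E] [BorelSpace E], QS0Stmt E) :
    QFNStmt := by
  refine ⟨50000, by norm_num, ?_⟩
  intro E _ _ _ _ _ t ht
  rcases le_or_gt t 1 with h1 | h1
  · exact qfn_one (hBAS E) hQPH (hQST E) hQIN (hQQB E) (hQS0 E) ht h1
  · have h2 := qfn_one (hBAS E) hQPH (hQST E) hQIN (hQQB E) (hQS0 E) one_pos le_rfl
    intro U hU
    exact h2 U ((hBAS E).1 U t 1 hU one_pos h1.le)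

/-- QKF -/
theorem qfn_kf
    (hBAS : ∀ (E : Type) [NormedAddCommGroup E] [InnerProductSpace ℝ E]
      [FiniteDimensional ℝ E] [MeasurableSpace E] [BorelSpace E], BASStmt E)
    (hQPH : QPHStmt)
    (hQST : ∀ (E : Type) [NormedAddCommGroup E] [InnerProductSpace ℝ E]
      [FiniteDimensional ℝ E] [MeasurableSpace E] [BorelSpace E], QSTStmt E)
    (hQIN : QINStmt)
    (hQQB : ∀ (E : Type) [NormedAddCommGroup E] [InnerProductSpace ℝ E]
      [FiniteDimensional ℝ E] [MeasurableSpace E] [BorelSpace E], QQBStmt E)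
    (hQS0 : ∀ (E : Type) [NormedAddCommGroup E] [InnerProductSpace ℝ E]
      [FiniteDimensional ℝ E] [MeasurableSpace E] [BorelSpace E], QS0Stmt E) :
    QKFStmt := by
  obtain ⟨C, hC, h⟩ := qfn_thm hBAS hQPH hQST hQIN hQQB hQS0
  refine ⟨4 * C, by linarith, ?_⟩
  intro E _ _ _ _ _ t ht
  exact ((hQQB E) t C ht (by linarith) (h E t ht)).1

end Pool.Agent.H59.KA
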