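import Pool.Agent.H59.KA.Stmts

/-!
# Project KA, module QQB: from `GQ` to the quadratic Poincare constant and to third moments
-/

set_option autoImplicit false

open MeasureTheory Set Filter Topology
open scoped ContDiff

namespace Pool.Agent.H59.KA

open Pool.Agent.H84 hiding cv mn
open Pool.Agent.H84.Sym Pool.Agent.H84.Sym.P2x Pool.Agent.H19.KL
open Pool.Agent.H73.KG Pool.Agent.H20.KH Pool.Agent.H78.KP

section

variable {E : Type} [NormedAddCommGroup E] [InnerProductSpace ℝ E]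
    [FiniteDimensional ℝ E] [MeasurableSpace E] [BorelSpace E]
variable {ι : Type} [Fintype ι]

omit [FiniteDimensional ℝ E] [MeasurableSpace E] [BorelSpace E] in
theorem qqb_gc_li (e : E) : GC (fun x : E => li e x) := by
  refine ⟨continuous_const.inner continuous_id, ?_⟩
  have h1 : Gr (fun x : E => ‖e‖ * ‖x‖) := Gr.mul (Gr.of_bdd (A := ‖e‖) fun _ => by simp) Gr.nrm
  refine Gr.of_le h1 fun x => ?_
  rw [abs_of_nonneg (mul_nonneg (norm_nonneg e) (norm_nonneg x))]
  exact abs_real_inner_le_norm e x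

theorem qqb_gc_xt (U : E → ℝ) (e : E) : GC (fun x : E => li e x - mn U e) :=
  (qqb_gc_li e).sub (GC.const _)

/-- linearity of the covariance in the second argument -/
theorem qqb_lin {U : E → ℝ} {t : ℝ} (hU : PP U t) {ψ : E → ℝ} (hψ : GC ψ) {κ : Type} [Fintype κ]
    (a : κ → ℝ) (F : κ → E → ℝ) (hF : ∀ k, GC (F k)) (K : ℝ) :
    cv U ψ (fun x => (∑ k, a k * F k x) + K) = ∑ k, a k * cv U ψ (F k) := by
  obtain ⟨⟨C, hP⟩, hprob⟩ := hU
  have i1 : ∀ k, Integrable (F k) (mu U) := fun k => (hF k).integrable hP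
  have i2 : ∀ k, Integrable (fun x => ψ x * F k x) (mu U) := fun k => (hψ.mul (hF k)).integrable hP
  have i3 : Integrable ψ (mu U) := hψ.integrable hP
  have e1 : ∫ x, ψ x * ((∑ k, a k * F k x) + K) ∂(mu U) =
      (∑ k, a k * ∫ x, ψ x * F k x ∂(mu U)) + K * ∫ x, ψ x ∂(mu U) := by
    have e2 : (fun x => ψ x * ((∑ k, a k * F k x) + K)) =
        fun x => (∑ k, a k * (ψ x * F k x)) + K * ψ x := by
      funext x
      rw [mul_add, Finset.mul_sum]
      congr 1
      · refine Finset.sum_congr rfl fun k _ => by ring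
      · ring
    rw [e2, integral_add (integrable_finsetSum _ fun k _ => (i2 k).const_mul _) (i3.const_mul _),
      integral_finsetSum _ fun k _ => (i2 k).const_mul _, integral_const_mul]
    congr 1
    refine Finset.sum_congr rfl fun k _ => integral_const_mul _ _
  have e3 : ∫ x, ((∑ k, a k * F k x) + K) ∂(mu U) = (∑ k, a k * ∫ x, F k x ∂(mu U)) + K := by
    rw [integral_add (integrable_finsetSum _ fun k _ => (i1 k).const_mul _) (integrable_const _),
      integral_finsetSum _ fun k _ => (i1 k).const_mul _]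
    congr 1
    · refine Finset.sum_congr rfl fun k _ => integral_const_mul _ _
    · simp
  unfold cv
  rw [e1, e3, mul_add, Finset.mul_sum]
  simp only [mul_sub, Finset.sum_sub_distrib]
  have e4 : ∑ k, a k * ((∫ x, ψ x ∂(mu U)) * ∫ x, F k x ∂(mu U)) =
      ∑ k, (∫ x, ψ x ∂(mu U)) * (a k * ∫ x, F k x ∂(mu U)) :=
    Finset.sum_congr rfl fun k _ => by ring
  rw [e4]
  ring

theorem qqb_q2_symm (U ψ : E → ℝ) (u v : E) : q2 U ψ u v = q2 U ψ v u := by
  unfold q2
  congr 1
  funext x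
  ring

theorem qqb_t3 {U : E → ℝ} {t : ℝ} (hU : PP U t) (θ u v : E) :
    t3 U θ u v = q2 U (li θ) u v := by
  obtain ⟨⟨C, hP⟩, hprob⟩ := hU
  have g1 := (qqb_gc_xt U u).mul (qqb_gc_xt U v)
  have i1 := g1.integrable hP
  have i2 := ((qqb_gc_li θ).mul g1).integrable hP
  unfold t3 q2 cv
  have e1 : (fun x => (li θ x - mn U θ) * (li u x - mn U u) * (li v x - mn U v)) =
      fun x => li θ x * ((li u x - mn U u) * (li v x - mn U v)) -
        mn U θ * ((li u x - mn U u) * (li v x - mn U v)) := by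
    funext x
    ring
  rw [e1, integral_sub i2 (i1.const_mul _), integral_const_mul]
  rfl

end

variable (E : Type) [NormedAddCommGroup E] [InnerProductSpace ℝ E]
    [FiniteDimensional ℝ E] [MeasurableSpace E] [BorelSpace E]

theorem qqb_qk (hBAS : BASStmt E) (hQPH : QPHStmt) (t g : ℝ) (hg : 0 ≤ g)
    (hG : GQ E t g) : QK E t (4 * g) := by
  obtain ⟨-, -, -, b4, -, b6, -⟩ := hBAS
  intro U hU hC ψ hψ ι _ b
  classical
  set B : Matrix ι ι ℝ := Matrix.of fun i j => q2 U ψ (b i) (b j) with hB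
  have hBs : SY B := fun i j => by
    simp only [hB, Matrix.of_apply]
    exact qqb_q2_symm U ψ _ _
  set c : ι → ℝ := fun i => -∑ j, B i j * mn U (b j) with hc
  have hqv : qv b B c U = fun _ => 0 := by
    funext i
    simp only [qv, hc]
    ring
  set K : ℝ := -∑ i, ∑ j, B i j * (mn U (b i) * mn U (b j)) with hK
  have hqf : qf b B c = fun x => (∑ p : ι × ι, B p.1 p.2 *
      ((li (b p.1) x - mn U (b p.1)) * (li (b p.2) x - mn U (b p.2)))) + K := by
    funext x
    rw [Fintype.sum_prod_type]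
    simp only [qf, hc, hK]
    have e1 : ∑ i, ∑ j, B i j * ((li (b i) x - mn U (b i)) * (li (b j) x - mn U (b j))) =
        (∑ i, ∑ j, B i j * (li (b i) x * li (b j) x)) -
        (∑ i, ∑ j, B i j * (li (b i) x * mn U (b j))) -
        (∑ i, ∑ j, B i j * (mn U (b i) * li (b j) x)) +
        ∑ i, ∑ j, B i j * (mn U (b i) * mn U (b j)) := by
      simp only [← Finset.sum_sub_distrib, ← Finset.sum_add_distrib]
      refine Finset.sum_congr rfl fun i _ => Finset.sum_congr rfl fun j _ => by ring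
    have e2 : ∑ i, ∑ j, B i j * (mn U (b i) * li (b j) x) =
        ∑ i, ∑ j, B i j * (li (b i) x * mn U (b j)) := by
      rw [Finset.sum_comm]
      refine Finset.sum_congr rfl fun i _ => Finset.sum_congr rfl fun j _ => ?_
      rw [hBs j i]
      ring
    have e3 : ∑ i, (-∑ j, B i j * mn U (b j)) * li (b i) x =
        -∑ i, ∑ j, B i j * (li (b i) x * mn U (b j)) := by
      rw [← Finset.sum_neg_distrib]
      refine Finset.sum_congr rfl fun i _ => ?_
      rw [neg_mul, Finset.sum_mul]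
      congr 1
      refine Finset.sum_congr rfl fun j _ => by ring
    rw [e1, e2, e3]
    ring
  have hF : ∀ p : ι × ι, GC (fun x => (li (b p.1) x - mn U (b p.1)) *
      (li (b p.2) x - mn U (b p.2))) := fun p => (qqb_gc_xt U _).mul (qqb_gc_xt U _)
  have hcv : cv U ψ (qf b B c) = ∑ i, ∑ j, (q2 U ψ (b i) (b j)) ^ 2 := by
    rw [hqf, qqb_lin hU hψ (fun p : ι × ι => B p.1 p.2) _ hF K, Fintype.sum_prod_type]
    refine Finset.sum_congr rfl fun i _ => Finset.sum_congr rfl fun j _ => ?_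
    simp only [hB, Matrix.of_apply]
    rw [pow_two]
    rfl
  have hgc : GC (qf b B c) := by
    rw [hqf]
    refine GC.add (GC.sum fun p => ?_) (GC.const _)
    exact (GC.const _).mul (hF p)
  set Q : ℝ := ∑ i, ∑ j, (q2 U ψ (b i) (b j)) ^ 2 with hQ
  have hQ0 : 0 ≤ Q := Finset.sum_nonneg fun i _ => Finset.sum_nonneg fun j _ => sq_nonneg _
  have h1 := b4 U t hU ψ (qf b B c) hψ hgc
  rw [hcv] at h1
  have h2 := hG U hU ι b B c hBs
  obtain ⟨p1, p2⟩ := b6 U t hU ι b
  have p3 := p2 1 hC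
  have p4 : (cm b U + 1).PosSemidef := p1.add Matrix.PosSemidef.one
  have h3 := (hQPH ι (cm b U + 1) B (qv b B c U) hBs).2.2.2 _ p4 p3
  have e5 : cm b U + 1 + ((1:ℝ) • (1 : Matrix ι ι ℝ) - cm b U) = (2:ℝ) • (1 : Matrix ι ι ℝ) := by
    rw [one_smul, two_smul]
    abel
  rw [e5, (hQPH ι ((2:ℝ) • 1) B (qv b B c U) hBs).2.1 2, hqv] at h3
  have h4 : Ph (cm b U + 1) B (qv b B c U) ≤ 4 * Q := by
    rw [hqv]
    refine h3.trans (le_of_eq ?_)
    simp only [hB, Matrix.of_apply, hQ]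
    simp
    norm_num
  have h5 : cv U (qf b B c) (qf b B c) ≤ g * (4 * Q) := h2.trans (mul_le_mul_of_nonneg_left h4 hg)
  obtain ⟨h6, -⟩ := h1
  have h7 : 0 ≤ cv U ψ ψ := (b4 U t hU ψ ψ hψ hψ).2.1
  rcases hQ0.eq_or_lt with h8 | h8
  · rw [← h8]
    positivity
  · have h9 : Q * Q ≤ (4 * g * cv U ψ ψ) * Q := by
      have := mul_le_mul_of_nonneg_left h5 h7
      nlinarith
    exact le_of_mul_le_mul_right h9 h8

/-- QQB -/
theorem qqb_thm (hBAS : BASStmt E) (hQPH : QPHStmt) : QQBStmt E := by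
  intro t g _ hg hG
  have hk := qqb_qk E hBAS hQPH t g hg hG
  refine ⟨hk, ?_⟩
  intro U hU hC θ hθ ι _ b
  have h1 := hk U hU hC (fun x => li θ x) (qqb_gc_li θ) ι b
  have h2 : ∑ i, ∑ j, (t3 U θ (b i) (b j)) ^ 2 =
      ∑ i, ∑ j, (q2 U (fun x => li θ x) (b i) (b j)) ^ 2 := by
    refine Finset.sum_congr rfl fun i _ => Finset.sum_congr rfl fun j _ => ?_
    rw [qqb_t3 hU]
  rw [h2]
  refine h1.trans ?_
  have h3 : cv U (fun x => li θ x) (fun x => li θ x) ≤ 1 := by
    have := hC θ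
    rw [hθ] at this
    have e : cv U (fun x => li θ x) (fun x => li θ x) = cv U (li θ) (li θ) := rfl
    rw [e]
    linarith
  have h4 : 0 ≤ 4 * g := by linarith
  calc 4 * g * cv U (fun x => li θ x) (fun x => li θ x) ≤ 4 * g * 1 :=
        mul_le_mul_of_nonneg_left h3 h4
    _ = 4 * g := mul_one _

end Pool.Agent.H59.KA
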